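import Pool.Agent.Y767.MT.Ex

/-! Closed embedded minimal submanifolds of codimension four in spheres, of every dimension from
three on, with arbitrarily small first Laplace eigenvalue: products of a sphere with a flat minimal
torus. -/

set_option autoImplicit false

namespace Pool.Agent.Results.MP_b0f4c2_gt.NoEigenvalueBound

open Pool.Agent.H85R3.Minimal

/-- For every `d ≥ 3` and every `ε > 0` there is a closed connected embedded minimal submanifold `M` of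
dimension `d` of the unit sphere `S^(n+1) ⊆ ℝ^(n+2)`, where `n = d + 3`, with a positive Laplace
eigenvalue that is at most `ε`; so its first eigenvalue is at most `ε`, and it is not `d`. For `d ≥ 9`
the inequality `d ≥ (2/3) n + 1` of the question holds. -/
theorem result : ∀ (d : ℕ) (ε : ℝ), 3 ≤ d → 0 < ε → ∃ M : Set (E ((d + 3) + 2)),
    IsClosedSubmanifold d M ∧ IsMinimalInSphere d M ∧
      (∃ μ : ℝ, 0 < μ ∧ μ ≤ ε ∧ IsEigenvalue d M μ) ∧
      firstEigenvalue d M ≤ ε ∧ firstEigenvalue d M ≠ d ∧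
      (9 ≤ d → (2 / 3 : ℝ) * ((d + 3 : ℕ) : ℝ) + 1 ≤ d) := by
  intro d ε hd hε
  obtain ⟨a, rfl⟩ : ∃ a, d = a + 2 := ⟨d - 2, by omega⟩
  have ha : 1 ≤ a := by omega
  obtain ⟨N, hN⟩ := exists_nat_gt (((a : ℝ) + 2) / ε)
  obtain ⟨T, hT⟩ := Pool.Agent.Y767.MT.exists_trip (N + 2)
  have hr2 : (2 : ℝ) ≤ (T.r : ℝ) := by
    exact_mod_cast (by omega : 2 ≤ T.r)
  have hrN : (N : ℝ) ≤ (T.r : ℝ) := by
    exact_mod_cast (by omega : N ≤ T.r)
  have hr0 : (0 : ℝ) < (T.r : ℝ) ^ 2 := by positivity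
  have hr4 : (4 : ℝ) ≤ (T.r : ℝ) ^ 2 := by nlinarith
  have hcast : (((a + 2 : ℕ) : ℝ)) = (a : ℝ) + 2 := by push_cast; ring
  have hd0 : (0 : ℝ) < (a : ℝ) + 2 := by positivity
  have hev : IsEigenvalue (a + 2) (Pool.Agent.Y767.MT.Mset a)
      (((a : ℝ) + 2) / (T.r : ℝ) ^ 2) := Pool.Agent.Y767.MT.isEigenvalue_Mset ha
  have hfe : firstEigenvalue (a + 2) (Pool.Agent.Y767.MT.Mset a) ≤
      ((a : ℝ) + 2) / (T.r : ℝ) ^ 2 := by
    refine csInf_le ⟨0, fun μ hμ => hμ.1.le⟩ ⟨by positivity, hev⟩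
  have hle : ((a : ℝ) + 2) / (T.r : ℝ) ^ 2 ≤ ε := by
    rw [div_le_iff₀ hr0]
    rw [div_lt_iff₀ hε] at hN
    nlinarith [mul_le_mul_of_nonneg_right hrN hε.le]
  refine ⟨Pool.Agent.Y767.MT.Mset a,
    Pool.Agent.Y767.MT.isClosedSubmanifold_Mset ha, Pool.Agent.Y767.MT.isMinimal_Mset ha,
    ⟨_, by positivity, hle, hev⟩, hfe.trans hle, ?_, ?_⟩
  · intro h2
    rw [h2, hcast, le_div_iff₀ hr0] at hfe
    nlinarith [mul_le_mul_of_nonneg_left hr4 hd0.le]
  · intro h9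
    have h9' : (7 : ℝ) ≤ (a : ℝ) := by exact_mod_cast (by omega : 7 ≤ a)
    push_cast
    linarith

end Pool.Agent.Results.MP_b0f4c2_gt.NoEigenvalueBound
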